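import Mathlib

set_option autoImplicit false

namespace Pool.Agent.TH503.MB

open Filter Finset

/-- The number of unordered representations of `n` as a sum of `h` elements of `A`. -/
noncomputable def rep (A : Set ℕ) (h n : ℕ) : ℕ :=
  Set.ncard {s : Multiset ℕ | Multiset.card s = h ∧ (∀ a ∈ s, a ∈ A) ∧ s.sum = n}

lemma reps_finite (A : Set ℕ) (h n : ℕ) :
    {s : Multiset ℕ | Multiset.card s = h ∧ (∀ a ∈ s, a ∈ A) ∧ s.sum = n}.Finite := by
  classical
  apply ((Multiset.powerset (h • Multiset.range (n+1))).toFinset.finite_toSet).subset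
  rintro s ⟨h1, h2, h3⟩
  simp only [Finset.mem_coe, Multiset.mem_toFinset, Multiset.mem_powerset]
  rw [Multiset.le_iff_count]
  intro a
  by_cases ha : a ∈ s
  · have h4 : a ≤ n := by
      rw [← h3]
      exact Multiset.le_sum_of_mem ha
    rw [Multiset.count_nsmul, Multiset.count_eq_one_of_mem (Multiset.nodup_range _)
      (by rw [Multiset.mem_range]; omega)]
    have h5 := Multiset.count_le_card a s
    simp only [mul_one]
    omega
  · rw [Multiset.count_eq_zero_of_notMem ha]; omega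

lemma card_le_rep {ι : Type*} {A : Set ℕ} {h n : ℕ} (T : Finset ι) (g : ι → Multiset ℕ)
    (h1 : ∀ i ∈ T, Multiset.card (g i) = h) (h2 : ∀ i ∈ T, ∀ a ∈ g i, a ∈ A)
    (h3 : ∀ i ∈ T, (g i).sum = n) (h4 : Set.InjOn g T) : T.card ≤ rep A h n := by
  rw [← Set.ncard_coe_finset T, ← h4.ncard_image]
  apply Set.ncard_le_ncard _ (reps_finite A h n)
  rintro _ ⟨i, hi, rfl⟩
  exact ⟨h1 i hi, h2 i hi, h3 i hi⟩

/-- The representation `s` of `a` as a vector of fractions with sum one. -/
noncomputable def shape (a : ℕ) (s : Multiset ℕ) : Multiset ℚ := s.map (fun x : ℕ => (x : ℚ) / a)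

lemma shape_scale (k a : ℕ) (hk : 0 < k) (s : Multiset ℕ) :
    shape (k * a) (s.map (fun x => k * x)) = shape a s := by
  unfold shape
  rw [Multiset.map_map]
  apply Multiset.map_congr rfl
  intro x _
  have : (k : ℚ) ≠ 0 := by positivity
  simp only [Function.comp_apply]
  push_cast
  rw [mul_div_mul_left _ _ this]

lemma card_le_rep_of_shapes {ι : Type*} {A : Set ℕ} {h n : ℕ} (T : Finset ι) (a : ι → ℕ)
    (s : ι → Multiset ℕ) (u : ι → ℕ) (hu : ∀ i ∈ T, 0 < u i) (hn : ∀ i ∈ T, u i * a i = n)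
    (h1 : ∀ i ∈ T, Multiset.card (s i) = h) (h2 : ∀ i ∈ T, ∀ x ∈ s i, u i * x ∈ A)
    (h3 : ∀ i ∈ T, (s i).sum = a i) (h4 : Set.InjOn (fun i => shape (a i) (s i)) T) :
    T.card ≤ rep A h n := by
  apply card_le_rep T (fun i => (s i).map (fun x => u i * x))
  · intro i hi
    rw [Multiset.card_map, h1 i hi]
  · intro i hi x hx
    rw [Multiset.mem_map] at hx
    obtain ⟨y, hy, rfl⟩ := hx
    exact h2 i hi y hy
  · intro i hi
    rw [Multiset.sum_map_mul_left, Multiset.map_id', h3 i hi, hn i hi]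
  · intro i hi j hj hij
    apply h4 hi hj
    simp only at hij ⊢
    rw [← shape_scale (u i) (a i) (hu i hi), ← shape_scale (u j) (a j) (hu j hj), hij, hn i hi,
      hn j hj]

lemma exists_half {a : ℕ} (ha : 0 < a) {s : Multiset ℕ} (hs : s.sum = a) (has : a ∉ s) :
    ∃ x ∈ s, 0 < x ∧ 2 * x ≤ a := by
  classical
  have key : ∀ t : Multiset ℕ, 0 < t.sum → ∃ x ∈ t, 0 < x := by
    intro t ht
    by_contra hcon
    push Not at hcon
    have : t.sum = 0 := by
      apply Multiset.sum_eq_zero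
      intro x hx
      have := hcon x hx
      omega
    omega
  obtain ⟨x, hx, hx0⟩ := key s (by omega)
  by_cases h2 : 2 * x ≤ a
  · exact ⟨x, hx, hx0, h2⟩
  · obtain ⟨t, rfl⟩ := Multiset.exists_cons_of_mem hx
    rw [Multiset.sum_cons] at hs
    have hxa : x ≠ a := by
      rintro rfl
      exact has hx
    obtain ⟨y, hy, hy0⟩ := key t (by omega)
    have h5 : y ≤ t.sum := Multiset.le_sum_of_mem hy
    exact ⟨y, Multiset.mem_cons_of_mem hy, hy0, by omega⟩

open Classical in
/-- A positive entry `≤ 1/2` of a shape. -/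
noncomputable def beta (τ : Multiset ℚ) : ℚ :=
  if h : ∃ q ∈ τ, 0 < q ∧ 2 * q ≤ 1 then h.choose else 1

lemma beta_pos (τ : Multiset ℚ) : 0 < beta τ := by
  unfold beta
  split_ifs with h
  · exact h.choose_spec.2.1
  · norm_num

lemma beta_spec {a : ℕ} (ha : 0 < a) {s : Multiset ℕ} (hs : s.sum = a) (has : a ∉ s) :
    ∃ x ∈ s, 0 < x ∧ 2 * x ≤ a ∧ beta (shape a s) * a = x := by
  have haq : (a : ℚ) ≠ 0 := by positivity
  have h : ∃ q ∈ shape a s, 0 < q ∧ 2 * q ≤ 1 := by
    obtain ⟨x, hx, hx0, hx2⟩ := exists_half ha hs has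
    refine ⟨(x : ℚ) / a, ?_, by positivity, ?_⟩
    · unfold shape
      exact Multiset.mem_map_of_mem _ hx
    · rw [← mul_div_assoc, div_le_one (by positivity)]
      exact_mod_cast hx2
  have hb : beta (shape a s) = h.choose := by
    unfold beta
    rw [dif_pos h]
  obtain ⟨h1, h2, h3⟩ := h.choose_spec
  rw [← hb] at h1 h2 h3
  unfold shape at h1
  rw [Multiset.mem_map] at h1
  obtain ⟨x, hx, hxe⟩ := h1
  change (x : ℚ) / a = beta (shape a s) at hxe
  refine ⟨x, hx, ?_, ?_, ?_⟩
  · rw [← hxe] at h2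
    by_contra h0
    have : x = 0 := by omega
    rw [this] at h2
    simp at h2
  · rw [← hxe, ← mul_div_assoc, div_le_one (by positivity)] at h3
    exact_mod_cast h3
  · rw [← hxe]
    field_simp

/-- The descent. -/
lemma ladder {A : Set ℕ} {N : ℕ} {s : ℕ → Multiset ℕ}
    (h2 : ∀ a ∈ A, N ≤ a → ∀ b ∈ s a, b ∈ A) (h3 : ∀ a ∈ A, N ≤ a → (s a).sum = a)
    (h4 : ∀ a ∈ A, N ≤ a → a ∉ s a) (x : ℕ) (Gs : Finset (Multiset ℚ))
    (hG : ∀ a ∈ A, N ≤ a → a ≤ x → 0 < a → shape a (s a) ∈ Gs) :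
    ∀ a ∈ A, 0 < a → a ≤ x → ∃ e : ℕ, e ≤ N ∧ 0 < e ∧ ∃ c : Multiset ℚ → ℕ,
      (a : ℚ) * ∏ τ ∈ Gs, beta τ ^ c τ = e ∧ 2 ^ (∑ τ ∈ Gs, c τ) * e ≤ a := by
  classical
  intro a
  induction a using Nat.strong_induction_on with
  | _ a ih =>
    intro ha ha0 hax
    by_cases haN : a < N
    · exact ⟨a, haN.le, ha0, fun _ => 0, by simp, by simp⟩
    · push Not at haN
      obtain ⟨y, hy, hy0, hy2, hye⟩ := beta_spec ha0 (h3 a ha haN) (h4 a ha haN)
      obtain ⟨e, he, he0, c, hc1, hc2⟩ := ih y (by omega) (h2 a ha haN y hy) hy0 (by omega)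
      have hmem := hG a ha haN hax ha0
      refine ⟨e, he, he0, Function.update c (shape a (s a)) (c (shape a (s a)) + 1), ?_, ?_⟩
      · rw [← hc1, ← hye]
        rw [← Finset.mul_prod_erase _ _ hmem, ← Finset.mul_prod_erase Gs _ hmem]
        rw [Function.update_self]
        have h5 : ∏ τ ∈ Gs.erase (shape a (s a)),
            beta τ ^ Function.update c (shape a (s a)) (c (shape a (s a)) + 1) τ =
            ∏ τ ∈ Gs.erase (shape a (s a)), beta τ ^ c τ := by
          apply Finset.prod_congr rfl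
          intro τ hτ
          rw [Function.update_of_ne (Finset.ne_of_mem_erase hτ)]
        rw [h5, pow_succ]
        ring
      · have h5 : ∑ τ ∈ Gs, Function.update c (shape a (s a)) (c (shape a (s a)) + 1) τ =
            ∑ τ ∈ Gs, c τ + 1 := by
          rw [← Finset.add_sum_erase _ _ hmem, ← Finset.add_sum_erase Gs c hmem]
          rw [Function.update_self]
          have h6 : ∑ τ ∈ Gs.erase (shape a (s a)),
              Function.update c (shape a (s a)) (c (shape a (s a)) + 1) τ =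
              ∑ τ ∈ Gs.erase (shape a (s a)), c τ := by
            apply Finset.sum_congr rfl
            intro τ hτ
            rw [Function.update_of_ne (Finset.ne_of_mem_erase hτ)]
          rw [h6]
          ring
        rw [h5, pow_succ]
        calc 2 ^ (∑ τ ∈ Gs, c τ) * 2 * e = 2 * (2 ^ (∑ τ ∈ Gs, c τ) * e) := by ring
          _ ≤ 2 * y := by omega
          _ ≤ a := hy2

lemma count_bound {ι : Type*} [Fintype ι] [DecidableEq ι] (L : ℕ) (z : ℝ) (hz0 : 0 < z)
    (hz1 : z < 1) :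
    (((Fintype.piFinset (fun _ : ι => range (L + 1))).filter
      (fun c => ∑ i, c i ≤ L)).card : ℝ) ≤ z⁻¹ ^ L * ((1 - z)⁻¹) ^ (Fintype.card ι) := by
  have hgeom : ∑ j ∈ range (L + 1), z ^ j ≤ (1 - z)⁻¹ := by
    rw [geom_sum_eq hz1.ne, ← neg_div_neg_eq, neg_sub, neg_sub, ← one_div]
    apply div_le_div_of_nonneg_right _ (by linarith)
    have : 0 ≤ z ^ (L + 1) := by positivity
    linarith
  calc (((Fintype.piFinset (fun _ : ι => range (L + 1))).filter
      (fun c => ∑ i, c i ≤ L)).card : ℝ)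
      = ∑ c ∈ (Fintype.piFinset (fun _ : ι => range (L + 1))).filter
          (fun c => ∑ i, c i ≤ L), (1 : ℝ) := by simp
    _ ≤ ∑ c ∈ (Fintype.piFinset (fun _ : ι => range (L + 1))).filter
          (fun c => ∑ i, c i ≤ L), z⁻¹ ^ L * z ^ (∑ i, c i) := by
        apply Finset.sum_le_sum
        intro c hc
        rw [Finset.mem_filter] at hc
        rw [inv_pow, ← div_eq_inv_mul, one_le_div (by positivity)]
        exact pow_le_pow_of_le_one hz0.le hz1.le hc.2
    _ ≤ ∑ c ∈ Fintype.piFinset (fun _ : ι => range (L + 1)), z⁻¹ ^ L * z ^ (∑ i, c i) := by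
        apply Finset.sum_le_sum_of_subset_of_nonneg (Finset.filter_subset _ _)
        intro c _ _
        positivity
    _ = z⁻¹ ^ L * ∏ i : ι, ∑ j ∈ range (L + 1), z ^ j := by
        rw [← Finset.mul_sum, Finset.prod_univ_sum]
        congr 1
        apply Finset.sum_congr rfl
        intro c _
        rw [Finset.prod_pow_eq_pow_sum]
    _ ≤ z⁻¹ ^ L * ((1 - z)⁻¹) ^ (Fintype.card ι) := by
        apply mul_le_mul_of_nonneg_left _ (by positivity)
        rw [Finset.prod_const, Finset.card_univ]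
        apply pow_le_pow_left₀ _ hgeom
        apply Finset.sum_nonneg
        intro j _
        positivity

/-- Many elements up to `x` need many shapes. -/
lemma few_shapes {A : Set ℕ} {N : ℕ} {s : ℕ → Multiset ℕ}
    (h2 : ∀ a ∈ A, N ≤ a → ∀ b ∈ s a, b ∈ A) (h3 : ∀ a ∈ A, N ≤ a → (s a).sum = a)
    (h4 : ∀ a ∈ A, N ≤ a → a ∉ s a) (x : ℕ) (Gs : Finset (Multiset ℚ))
    (hG : ∀ a ∈ A, N ≤ a → a ≤ x → 0 < a → shape a (s a) ∈ Gs) (z : ℝ) (hz0 : 0 < z)
    (hz1 : z < 1) :
    ((A ∩ Set.Icc 1 x).ncard : ℝ) ≤ (N + 1) * (z⁻¹ ^ (Nat.log 2 x) * ((1 - z)⁻¹) ^ Gs.card) := by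
  classical
  set L := Nat.log 2 x with hL
  have hlad := ladder h2 h3 h4 x Gs hG
  choose! e he he0 c hc1 hc2 using hlad
  set P := (range (N + 1)) ×ˢ ((Fintype.piFinset (fun _ : Gs => range (L + 1))).filter
      (fun c => ∑ i, c i ≤ L)) with hP
  have hfin : (A ∩ Set.Icc 1 x).Finite := (Set.finite_Icc 1 x).subset Set.inter_subset_right
  have hcard : (A ∩ Set.Icc 1 x).ncard ≤ P.card := by
    rw [← Set.ncard_coe_finset P]
    apply Set.ncard_le_ncard_of_injOn (fun a => (e a, fun τ : Gs => c a τ))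
    · rintro a ⟨haA, ha1, hax⟩
      have hx0 : x ≠ 0 := by omega
      have hsum : ∑ τ ∈ Gs, c a τ ≤ L := by
        have h5 := hc2 a haA (by omega) hax
        have h6 := he0 a haA (by omega) hax
        have h7 : 2 ^ (∑ τ ∈ Gs, c a τ) ≤ x := by
          calc 2 ^ (∑ τ ∈ Gs, c a τ) = 2 ^ (∑ τ ∈ Gs, c a τ) * 1 := by ring
            _ ≤ 2 ^ (∑ τ ∈ Gs, c a τ) * e a := Nat.mul_le_mul_left _ h6
            _ ≤ a := h5
            _ ≤ x := hax
        rw [hL]
        exact (Nat.le_log_iff_pow_le (by norm_num) hx0).2 h7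
      have hsum' : ∑ τ : Gs, c a τ ≤ L := by
        rw [Finset.sum_coe_sort Gs (fun τ => c a τ)]
        exact hsum
      simp only [hP, Finset.coe_product, Set.mem_prod, Finset.mem_coe, Finset.mem_range,
        Finset.mem_filter, Fintype.mem_piFinset]
      refine ⟨?_, ?_, hsum'⟩
      · have := he a haA (by omega) hax
        omega
      · intro τ
        have : c a τ ≤ ∑ τ : Gs, c a τ := by
          apply Finset.single_le_sum (f := fun τ : Gs => c a τ) (fun _ _ => Nat.zero_le _)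
            (Finset.mem_univ τ)
        omega
    · rintro a ⟨haA, ha1, hax⟩ b ⟨hbA, hb1, hbx⟩ hab
      simp only [Prod.mk.injEq] at hab
      obtain ⟨h5, h6⟩ := hab
      have h7 := hc1 a haA (by omega) hax
      have h8 := hc1 b hbA (by omega) hbx
      have h9 : ∏ τ ∈ Gs, beta τ ^ c a τ = ∏ τ ∈ Gs, beta τ ^ c b τ := by
        apply Finset.prod_congr rfl
        intro τ hτ
        have := congrFun h6 ⟨τ, hτ⟩
        simp only at this
        rw [this]
      have h10 : (0 : ℚ) < ∏ τ ∈ Gs, beta τ ^ c b τ :=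
        Finset.prod_pos fun τ _ => pow_pos (beta_pos τ) _
      rw [h9, h5, ← h8] at h7
      have := mul_right_cancel₀ h10.ne' h7
      exact_mod_cast this
  have hcount := count_bound (ι := Gs) L z hz0 hz1
  calc ((A ∩ Set.Icc 1 x).ncard : ℝ) ≤ P.card := by exact_mod_cast hcard
    _ = (N + 1) * (((Fintype.piFinset (fun _ : Gs => range (L + 1))).filter
      (fun c => ∑ i, c i ≤ L)).card : ℝ) := by
        rw [hP, Finset.card_product, Finset.card_range]
        push_cast
        rfl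
    _ ≤ _ := by
        apply mul_le_mul_of_nonneg_left _ (by positivity)
        rw [Fintype.card_coe] at hcount
        exact hcount

end Pool.Agent.TH503.MB
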