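import Pool.Agent.TH503.MB.More

set_option autoImplicit false

namespace Pool.Agent.TH503.MB

open Filter Finset

/-- Coprime numbers in one class. -/
theorem coprime_class {A S M : Set ℕ} {h : ℕ} (hh : 2 ≤ h) (hA0 : 0 ∉ A) (hA : IsBasis A h)
    (hact : Acts S A) (hM : M.Pairwise Nat.Coprime) (hMinf : M.Infinite)
    (hcl : ∀ m ∈ M, ∀ m' ∈ M, ∃ s ∈ S, ∃ s' ∈ S, s * m = s' * m') :
    ∀ K : ℕ, ∃ n, K < rep A h n := by
  classical
  intro K
  obtain ⟨N, hN⟩ := hA
  choose! s hs1 hs2 hs3 using hN
  have hAne : ∃ a, a ∈ A := by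
    have h1 := hs1 N le_rfl
    obtain ⟨y, hy⟩ : ∃ y, y ∈ s N := Multiset.exists_mem_of_ne_zero (by
      intro h0
      rw [h0] at h1
      simp at h1
      omega)
    exact ⟨y, hs2 N le_rfl y hy⟩
  obtain ⟨a0, ha0⟩ := hAne
  have hSpos : ∀ {u}, u ∈ S → 0 < u := by
    intro u hu
    refine Nat.pos_of_ne_zero ?_
    rintro rfl
    exact hA0 (by simpa using hact 0 hu a0 ha0)
  -- a large finite subset
  have hinf' : (M ∩ Set.Ici (N + 2)).Infinite := by
    intro hfin
    apply hMinf
    apply (hfin.union (Set.finite_Iio (N + 2))).subset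
    intro m hm
    rcases lt_or_ge m (N + 2) with h1 | h1
    · exact Or.inr h1
    · exact Or.inl ⟨hm, h1⟩
  obtain ⟨T, hTsub, hTc⟩ := Set.Infinite.exists_subset_card_eq hinf' (K + 1)
  have hTM : ∀ m ∈ T, m ∈ M := fun m hm => (hTsub hm).1
  have hTN : ∀ m ∈ T, N + 2 ≤ m := fun m hm => (hTsub hm).2
  have hge : ∀ m ∈ T, N ≤ m := fun m hm => by have := hTN m hm; omega
  have hpos : ∀ m ∈ T, 0 < m := fun m hm => by have := hTN m hm; omega
  obtain ⟨m0, hm0⟩ : T.Nonempty := by
    rw [← Finset.card_pos, hTc]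
    omega
  have hch : ∀ m ∈ T, ∃ u, u ∈ S ∧ ∃ v, v ∈ S ∧ u * m = v * m0 := by
    intro m hm
    obtain ⟨u, hu, v, hv, he⟩ := hcl m (hTM m hm) m0 (hTM m0 hm0)
    exact ⟨u, hu, v, hv, he⟩
  choose! uu huu vv hvv huv using hch
  refine ⟨m0 * ∏ m ∈ T, vv m, ?_⟩
  have h1 : T.card ≤ rep A h (m0 * ∏ m ∈ T, vv m) := by
    apply card_le_rep_of_shapes T (fun m => m) s (fun m => uu m * ∏ m' ∈ T.erase m, vv m')
    · intro m hm
      exact Nat.mul_pos (hSpos (huu m hm))
        (Finset.prod_pos fun m' hm' => hSpos (hvv m' (Finset.mem_of_mem_erase hm')))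
    · intro m hm
      rw [← Finset.mul_prod_erase T vv hm]
      calc uu m * (∏ m' ∈ T.erase m, vv m') * m
          = (uu m * m) * ∏ m' ∈ T.erase m, vv m' := by ring
        _ = (vv m * m0) * ∏ m' ∈ T.erase m, vv m' := by rw [huv m hm]
        _ = _ := by ring
    · intro m hm
      exact hs1 m (hge m hm)
    · intro m hm x hx
      rw [mul_assoc]
      apply hact _ (huu m hm)
      apply hact.prod
      · intro m' hm'
        exact hvv m' (Finset.mem_of_mem_erase hm')
      · exact hs2 m (hge m hm) x hx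
    · intro m hm
      exact hs3 m (hge m hm)
    · intro m hm m' hm' heq
      by_contra hne
      have hc : Nat.Coprime m m' := hM (hTM m hm) (hTM m' hm') hne
      simp only at heq
      have hcard := hs1 m (hge m hm)
      obtain ⟨x, hx⟩ : ∃ x, x ∈ s m := Multiset.exists_mem_of_ne_zero (by
        intro h0
        rw [h0] at hcard
        simp at hcard
        omega)
      obtain ⟨t, ht⟩ := Multiset.exists_cons_of_mem hx
      have hsum := hs3 m (hge m hm)
      have htc : Multiset.card t = h - 1 := by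
        rw [ht, Multiset.card_cons] at hcard
        omega
      obtain ⟨y, hy⟩ : ∃ y, y ∈ t := Multiset.exists_mem_of_ne_zero (by
        intro h0
        rw [h0] at htc
        simp at htc
        omega)
      have hyA : y ∈ A := hs2 m (hge m hm) y (by rw [ht]; exact Multiset.mem_cons_of_mem hy)
      have hxA : x ∈ A := hs2 m (hge m hm) x hx
      have hy0 : 0 < y := Nat.pos_of_ne_zero (by rintro rfl; exact hA0 hyA)
      have hx0 : 0 < x := Nat.pos_of_ne_zero (by rintro rfl; exact hA0 hxA)
      have hxm : x < m := by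
        rw [ht, Multiset.sum_cons] at hsum
        have := Multiset.le_sum_of_mem hy
        omega
      have h1 : (x : ℚ) / m ∈ shape m (s m) := by
        unfold shape
        exact Multiset.mem_map_of_mem (fun x : ℕ => (x : ℚ) / m) hx
      rw [heq] at h1
      unfold shape at h1
      rw [Multiset.mem_map] at h1
      obtain ⟨z, _, hz⟩ := h1
      have hmq : (m : ℚ) ≠ 0 := by exact_mod_cast (hpos m hm).ne'
      have hmq' : (m' : ℚ) ≠ 0 := by exact_mod_cast (hpos m' hm').ne'
      rw [div_eq_div_iff hmq' hmq] at hz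
      have h2 : z * m = x * m' := by exact_mod_cast hz
      have h3 : m ∣ x * m' := ⟨z, by rw [← h2]; ring⟩
      have h4 : m ∣ x := hc.dvd_of_dvd_mul_right h3
      have := Nat.le_of_dvd hx0 h4
      omega
  omega

end Pool.Agent.TH503.MB
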