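import Pool.Agent.TH503.MB.Basic

set_option autoImplicit false

namespace Pool.Agent.TH503.MB

open Filter Finset

/-- From the counting bound: the number of shapes is at least a constant times `log x`. -/
lemma shapes_many (δ : ℝ) (hδ : 0 < δ) : ∃ c1 : ℝ, 0 < c1 ∧ ∀ N : ℕ, ∃ L0 : ℕ, ∀ x t : ℕ,
    L0 ≤ Nat.log 2 x → x ≠ 0 →
    (x : ℝ) ^ δ ≤ (N + 1) * (((2 : ℝ) ^ (-(δ / 2)))⁻¹ ^ (Nat.log 2 x) *
      ((1 - (2 : ℝ) ^ (-(δ / 2)))⁻¹) ^ t) → c1 * Nat.log 2 x ≤ t := by
  set z : ℝ := (2 : ℝ) ^ (-(δ / 2)) with hz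
  have hz0 : 0 < z := by positivity
  have hz1 : z < 1 := by
    rw [hz]
    apply Real.rpow_lt_one_of_one_lt_of_neg (by norm_num)
    linarith
  have hw : 1 < (1 - z)⁻¹ := by
    rw [one_lt_inv₀ (by linarith)]
    linarith
  have hlw : 0 < Real.log (1 - z)⁻¹ := Real.log_pos hw
  have hl2 : 0 < Real.log 2 := Real.log_pos (by norm_num)
  refine ⟨δ * Real.log 2 / (4 * Real.log (1 - z)⁻¹), by positivity, ?_⟩
  intro N
  obtain ⟨L0, hL0⟩ := exists_nat_ge (Real.log (N + 1) / (δ / 4 * Real.log 2))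
  refine ⟨L0, ?_⟩
  intro x t hLx hx hineq
  set L := Nat.log 2 x with hL
  have h1 : (2 : ℝ) ^ (L : ℝ) ≤ x := by
    rw [Real.rpow_natCast]
    exact_mod_cast Nat.pow_log_le_self 2 hx
  have h2 : ((2 : ℝ) ^ (L : ℝ)) ^ δ ≤ (x : ℝ) ^ δ :=
    Real.rpow_le_rpow (by positivity) h1 hδ.le
  have h3 := h2.trans hineq
  have h4 := Real.log_le_log (by positivity) h3
  rw [← Real.rpow_mul (by norm_num), Real.log_rpow (by norm_num)] at h4
  rw [Real.log_mul (by positivity) (by positivity), Real.log_mul (by positivity) (by positivity),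
    Real.log_pow, Real.log_pow, Real.log_inv z, hz, Real.log_rpow (by norm_num)] at h4
  rw [← hz] at h4
  have h5 : Real.log (N + 1) ≤ L * (δ / 4 * Real.log 2) := by
    rw [div_le_iff₀ (by positivity)] at hL0
    refine hL0.trans ?_
    apply mul_le_mul_of_nonneg_right _ (by positivity)
    exact_mod_cast hLx
  rw [div_mul_eq_mul_div, div_le_iff₀ (by positivity)]
  nlinarith

/-- `S` acts on `A` by multiplication. -/
def Acts (S A : Set ℕ) : Prop := ∀ s ∈ S, ∀ a ∈ A, s * a ∈ A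

lemma Acts.prod {S A : Set ℕ} (h : Acts S A) {ι : Type*} (T : Finset ι) (s : ι → ℕ)
    (hs : ∀ i ∈ T, s i ∈ S) : ∀ a ∈ A, (∏ i ∈ T, s i) * a ∈ A := by
  classical
  induction T using Finset.induction_on with
  | empty => intro a ha; simpa using ha
  | insert i T hi ih =>
    intro a ha
    rw [Finset.prod_insert hi, mul_assoc]
    exact h _ (hs i (Finset.mem_insert_self i T)) _
      (ih (fun j hj => hs j (Finset.mem_insert_of_mem hj)) a ha)

/-- Quantitative core. -/
theorem core (h m : ℕ) (hm : 1 ≤ m) (δ : ℝ) (hδ : 0 < δ) : ∃ c : ℝ, 0 < c ∧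
    ∀ (A S : Set ℕ) (F : Finset ℕ), Acts S A → 0 ∉ S → F.card ≤ m → 0 ∉ F →
      (∀ a ∈ A, a ≠ 0 → ∃ f ∈ F, ∃ s ∈ S, a = f * s) →
      (∃ᶠ x : ℕ in atTop, (x : ℝ) ^ δ ≤ ((A ∩ Set.Icc 1 x).ncard : ℝ)) →
      (∃ N : ℕ, ∀ a ∈ A, N ≤ a → ∃ s : Multiset ℕ, Multiset.card s = h ∧
        (∀ b ∈ s, b ∈ A) ∧ s.sum = a ∧ a ∉ s) →
      ∃ᶠ n : ℕ in atTop, c * √(Real.log n) ≤ rep A h n := by
  classical
  obtain ⟨c1, hc1, hmany⟩ := shapes_many δ hδ
  have hm0 : (0 : ℝ) < m := by exact_mod_cast hm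
  set c2 : ℝ := c1 / m with hc2
  have hc2p : 0 < c2 := by positivity
  refine ⟨c2 / 2 / √(2 * c2), by positivity, ?_⟩
  intro A S F hact hS0 hFm hF0 hAF hfreq hsum
  obtain ⟨N, hN⟩ := hsum
  choose! s hs1 hs2 hs3 hs4 using hN
  -- find good `n`
  have key : ∀ K : ℕ, ∃ n k : ℕ, K ≤ k ∧ k ≤ rep A h n ∧
      c2 / 2 / √(2 * c2) * √(Real.log n) ≤ k := by
    intro K
    obtain ⟨L0, hL0⟩ := hmany N
    -- largeness
    obtain ⟨L1, hL1⟩ := exists_nat_ge ((K + 1 : ℝ) / c2)
    obtain ⟨L2, hL2⟩ := exists_nat_ge ((2 : ℝ) / c2)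
    obtain ⟨L3, hL3⟩ := exists_nat_ge ((∑ f ∈ F, Real.log f) / c2)
    set LL := L0 + L1 + L2 + L3 + 3 with hLL
    obtain ⟨x, hxA, hx⟩ := (hfreq.and_eventually (eventually_ge_atTop (2 ^ LL))).exists
    have hx0 : x ≠ 0 := by
      have : 0 < 2 ^ LL := by positivity
      omega
    set L := Nat.log 2 x with hLdef
    have hLge : LL ≤ L := (Nat.le_log_iff_pow_le (by norm_num) hx0).2 hx
    -- shapes
    set D := (range (x + 1)).filter (fun a => a ∈ A ∧ N ≤ a ∧ 0 < a) with hD
    set G := D.image (fun a => shape a (s a)) with hG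
    have hfew := few_shapes (A := A) (N := N) (s := s) hs2 hs3 hs4 x G
      (fun a ha haN hax ha0 => Finset.mem_image.2 ⟨a, by
        rw [hD, Finset.mem_filter, Finset.mem_range]
        exact ⟨by omega, ha, haN, ha0⟩, rfl⟩) ((2 : ℝ) ^ (-(δ / 2))) (by positivity)
      (Real.rpow_lt_one_of_one_lt_of_neg (by norm_num) (by linarith))
    have ht : c1 * L ≤ G.card := hL0 x G.card (by omega) hx0 (hxA.trans hfew)
    -- representatives of shapes
    have hrep : ∀ τ ∈ G, ∃ a, a ∈ A ∧ N ≤ a ∧ 0 < a ∧ a ≤ x ∧ shape a (s a) = τ := by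
      intro τ hτ
      rw [hG, Finset.mem_image] at hτ
      obtain ⟨a, ha, hτ⟩ := hτ
      rw [hD, Finset.mem_filter, Finset.mem_range] at ha
      exact ⟨a, ha.2.1, ha.2.2.1, ha.2.2.2, by omega, hτ⟩
    choose! al hal1 hal2 hal3 hal4 hal5 using hrep
    have hfac : ∀ τ ∈ G, ∃ f, f ∈ F ∧ ∃ u, u ∈ S ∧ al τ = f * u := by
      intro τ hτ
      obtain ⟨f, hf, u, hu, h1⟩ := hAF (al τ) (hal1 τ hτ) (hal3 τ hτ).ne'
      exact ⟨f, hf, u, hu, h1⟩
    choose! ff hff uu huu hfu using hfac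
    -- pigeonhole
    have hLr : (LL : ℝ) ≤ L := by exact_mod_cast hLge
    have hGpos : 0 < G.card := by
      have h1 : (0 : ℝ) < G.card := by
        refine lt_of_lt_of_le ?_ ht
        have : (0 : ℝ) < L := by
          have : (3 : ℝ) ≤ LL := by rw [hLL]; push_cast; linarith [(Nat.cast_nonneg L0 : (0:ℝ) ≤ L0), (Nat.cast_nonneg L1 : (0:ℝ) ≤ L1), (Nat.cast_nonneg L2 : (0:ℝ) ≤ L2), (Nat.cast_nonneg L3 : (0:ℝ) ≤ L3)]
          linarith
        positivity
      exact_mod_cast h1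
    have hFne : F.Nonempty := by
      obtain ⟨τ, hτ⟩ := Finset.card_pos.1 hGpos
      exact ⟨ff τ, hff τ hτ⟩
    set k := ⌊c2 * L⌋₊ with hk
    have hkle : (k : ℝ) ≤ c2 * L := Nat.floor_le (by positivity)
    have hkge : c2 * L - 1 < k := by
      have := Nat.lt_floor_add_one (c2 * L)
      linarith
    obtain ⟨f, hf, hfib⟩ : ∃ f ∈ F, k ≤ (G.filter (fun τ => ff τ = f)).card := by
      apply Finset.exists_le_card_fiber_of_mul_le_card_of_maps_to (fun τ hτ => hff τ hτ) hFne
      have h1 : ((F.card * k : ℕ) : ℝ) ≤ G.card := by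
        push_cast
        calc (F.card : ℝ) * k ≤ m * (c2 * L) := by
              apply mul_le_mul _ hkle (by positivity) (by positivity)
              exact_mod_cast hFm
          _ = c1 * L := by rw [hc2]; field_simp
          _ ≤ _ := ht
      exact_mod_cast h1
    obtain ⟨T, hTsub, hTcard⟩ := Finset.exists_subset_card_eq hfib
    have hTG : ∀ τ ∈ T, τ ∈ G := fun τ hτ => (Finset.mem_filter.1 (hTsub hτ)).1
    have hTf : ∀ τ ∈ T, ff τ = f := fun τ hτ => (Finset.mem_filter.1 (hTsub hτ)).2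
    have hupos : ∀ τ ∈ T, 0 < uu τ := by
      intro τ hτ
      have h1 := huu τ (hTG τ hτ)
      rcases Nat.eq_zero_or_pos (uu τ) with h0 | h0
      · rw [h0] at h1
        exact absurd h1 hS0
      · exact h0
    have hfpos : 0 < f := by
      rcases Nat.eq_zero_or_pos f with h0 | h0
      · rw [h0] at hf
        exact absurd hf hF0
      · exact h0
    refine ⟨f * ∏ τ ∈ T, uu τ, k, ?_, ?_, ?_⟩
    · -- K ≤ k
      have h1 : ((K : ℝ) + 1) ≤ c2 * L := by
        rw [div_le_iff₀ hc2p] at hL1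
        have : (L1 : ℝ) ≤ L := by
          refine le_trans ?_ hLr
          exact_mod_cast (by omega : L1 ≤ LL)
        nlinarith
      have h2 : (K : ℝ) < k := by linarith
      exact_mod_cast h2.le
    · -- representations
      rw [← hTcard]
      apply card_le_rep_of_shapes T al (fun τ => s (al τ)) (fun τ => ∏ τ' ∈ T.erase τ, uu τ')
      · intro τ hτ
        exact Finset.prod_pos fun τ' hτ' => hupos τ' (Finset.mem_of_mem_erase hτ')
      · intro τ hτ
        rw [hfu τ (hTG τ hτ), hTf τ hτ, ← Finset.mul_prod_erase T uu hτ]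
        ring
      · intro τ hτ
        exact hs1 _ (hal1 τ (hTG τ hτ)) (hal2 τ (hTG τ hτ))
      · intro τ hτ b hb
        apply hact.prod
        · intro τ' hτ'
          exact huu τ' (hTG τ' (Finset.mem_of_mem_erase hτ'))
        · exact hs2 _ (hal1 τ (hTG τ hτ)) (hal2 τ (hTG τ hτ)) b hb
      · intro τ hτ
        exact hs3 _ (hal1 τ (hTG τ hτ)) (hal2 τ (hTG τ hτ))
      · intro τ hτ τ' hτ' hh
        simp only at hh
        rw [hal5 τ (hTG τ hτ), hal5 τ' (hTG τ' hτ')] at hh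
        exact hh
    · -- size
      have hlog : Real.log ((f * ∏ τ ∈ T, uu τ : ℕ) : ℝ) ≤ 2 * c2 * L ^ 2 := by
        have h1 : (∏ τ ∈ T, uu τ) ≤ x ^ k := by
          rw [← hTcard]
          apply Finset.prod_le_pow_card
          intro τ hτ
          have h2 := hal4 τ (hTG τ hτ)
          rw [hfu τ (hTG τ hτ), hTf τ hτ] at h2
          calc uu τ = 1 * uu τ := by ring
            _ ≤ f * uu τ := Nat.mul_le_mul_right _ hfpos
            _ ≤ x := h2
        have h2 : ((f * ∏ τ ∈ T, uu τ : ℕ) : ℝ) ≤ f * (x : ℝ) ^ k := by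
          have : f * ∏ τ ∈ T, uu τ ≤ f * x ^ k := Nat.mul_le_mul_left _ h1
          exact_mod_cast this
        have hprodpos : 0 < f * ∏ τ ∈ T, uu τ := Nat.mul_pos hfpos (Finset.prod_pos hupos)
        have hfr : (0 : ℝ) < f := by exact_mod_cast hfpos
        have hxr : (0 : ℝ) < x := by exact_mod_cast (Nat.pos_of_ne_zero hx0)
        have h3 := Real.log_le_log (by exact_mod_cast hprodpos) h2
        rw [Real.log_mul hfr.ne' (by positivity), Real.log_pow] at h3
        have h4 : Real.log x ≤ L := by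
          have h5 : (x : ℝ) ≤ 2 ^ (L + 1) := by
            exact_mod_cast (Nat.lt_pow_succ_log_self (by norm_num : 1 < 2) x).le
          have h6 := Real.log_le_log hxr h5
          rw [Real.log_pow] at h6
          have h7 : Real.log 2 < 0.6931471808 := Real.log_two_lt_d9
          have h8 : (3 : ℝ) ≤ L := by
            refine le_trans ?_ hLr
            rw [hLL]
            push_cast
            linarith [(Nat.cast_nonneg L0 : (0:ℝ) ≤ L0), (Nat.cast_nonneg L1 : (0:ℝ) ≤ L1), (Nat.cast_nonneg L2 : (0:ℝ) ≤ L2), (Nat.cast_nonneg L3 : (0:ℝ) ≤ L3)]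
          push_cast at h6
          nlinarith
        have h5 : Real.log f ≤ c2 * L := by
          have h6 : Real.log f ≤ ∑ g ∈ F, Real.log g := by
            apply Finset.single_le_sum (f := fun g : ℕ => Real.log g) _ hf
            intro g hg
            exact Real.log_natCast_nonneg g
          have h7 : (L3 : ℝ) ≤ L := by
            refine le_trans ?_ hLr
            exact_mod_cast (by omega : L3 ≤ LL)
          rw [div_le_iff₀ hc2p] at hL3
          nlinarith
        have h8 : (1 : ℝ) ≤ L := by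
          refine le_trans ?_ hLr
          exact_mod_cast (by omega : 1 ≤ LL)
        calc _ ≤ Real.log f + k * Real.log x := h3
          _ ≤ c2 * L + c2 * L * L := by
              have h9 : (k : ℝ) * Real.log x ≤ c2 * L * L :=
                mul_le_mul hkle h4 (Real.log_natCast_nonneg x) (by positivity)
              linarith
          _ ≤ 2 * c2 * L ^ 2 := by nlinarith [mul_pos hc2p (by linarith : (0:ℝ) < L)]
      have hL0' : (0 : ℝ) ≤ L := by positivity
      have h1 : √(Real.log ((f * ∏ τ ∈ T, uu τ : ℕ) : ℝ)) ≤ √(2 * c2) * L := by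
        calc √(Real.log ((f * ∏ τ ∈ T, uu τ : ℕ) : ℝ)) ≤ √(2 * c2 * L ^ 2) :=
              Real.sqrt_le_sqrt hlog
          _ = √(2 * c2) * L := by
              rw [Real.sqrt_mul (by positivity), Real.sqrt_sq hL0']
      have h2 : 0 < √(2 * c2) := Real.sqrt_pos.2 (by positivity)
      have h3 : c2 / 2 / √(2 * c2) * √(Real.log ((f * ∏ τ ∈ T, uu τ : ℕ) : ℝ)) ≤ c2 / 2 * L := by
        calc _ ≤ c2 / 2 / √(2 * c2) * (√(2 * c2) * L) :=
              mul_le_mul_of_nonneg_left h1 (by positivity)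
          _ = c2 / 2 * L := by field_simp
      have h4 : (2 : ℝ) ≤ c2 * L := by
        rw [div_le_iff₀ hc2p] at hL2
        have : (L2 : ℝ) ≤ L := by
          refine le_trans ?_ hLr
          exact_mod_cast (by omega : L2 ≤ LL)
        nlinarith
      linarith
  -- conclude
  intro hev
  rw [Filter.eventually_atTop] at hev
  obtain ⟨n0, hn0⟩ := hev
  obtain ⟨n, k, hk1, hk2, hk3⟩ := key (∑ i ∈ range n0, rep A h i + 1)
  by_cases hn : n0 ≤ n
  · apply hn0 n hn
    exact hk3.trans (by exact_mod_cast hk2)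
  · push Not at hn
    have : rep A h n ≤ ∑ i ∈ range n0, rep A h i :=
      Finset.single_le_sum (f := fun i => rep A h i) (fun _ _ => Nat.zero_le _)
        (Finset.mem_range.2 hn)
    omega

end Pool.Agent.TH503.MB
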