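import Pool.Agent.TH503.MB.Core

set_option autoImplicit false

namespace Pool.Agent.TH503.MB

open Filter Finset

/-- `A` is an asymptotic basis of order `h`. -/
def IsBasis (A : Set ℕ) (h : ℕ) : Prop :=
  ∃ N : ℕ, ∀ n : ℕ, N ≤ n →
    ∃ s : Multiset ℕ, Multiset.card s = h ∧ (∀ a ∈ s, a ∈ A) ∧ s.sum = n

lemma basis_count {A : Set ℕ} {h N : ℕ}
    (hN : ∀ n : ℕ, N ≤ n → ∃ s : Multiset ℕ, Multiset.card s = h ∧ (∀ a ∈ s, a ∈ A) ∧ s.sum = n)
    (x : ℕ) : x + 1 - N ≤ ((A ∩ Set.Icc 1 x).ncard + 1) ^ h := by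
  classical
  set D := (range (x + 1)).filter (fun a => a ∈ A) with hD
  have hDc : D.card ≤ (A ∩ Set.Icc 1 x).ncard + 1 := by
    have h1 : D ⊆ insert 0 (((Set.finite_Icc 1 x).subset
        (Set.inter_subset_right : A ∩ Set.Icc 1 x ⊆ _)).toFinset) := by
      intro a ha
      rw [hD, Finset.mem_filter, Finset.mem_range] at ha
      rw [Finset.mem_insert, Set.Finite.mem_toFinset]
      rcases Nat.eq_zero_or_pos a with h0 | h0
      · exact Or.inl h0
      · exact Or.inr ⟨ha.2, h0, by omega⟩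
    have h2 := (Finset.card_le_card h1).trans (Finset.card_insert_le _ _)
    rwa [← Set.ncard_eq_toFinset_card _ ((Set.finite_Icc 1 x).subset
        (Set.inter_subset_right : A ∩ Set.Icc 1 x ⊆ _))] at h2
  have h1 : Finset.Icc N x ⊆ (Fintype.piFinset (fun _ : Fin h => D)).image
      (fun p => ∑ i, p i) := by
    intro n hn
    rw [Finset.mem_Icc] at hn
    obtain ⟨s, hs1, hs2, hs3⟩ := hN n hn.1
    rw [Finset.mem_image]
    induction s using Quotient.inductionOn with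
    | _ l =>
      rw [Multiset.quot_mk_to_coe] at hs1 hs2 hs3
      rw [Multiset.coe_card] at hs1
      subst hs1
      rw [Multiset.sum_coe] at hs3
      refine ⟨fun i => l[i.1], ?_, ?_⟩
      · rw [Fintype.mem_piFinset]
        intro i
        rw [hD, Finset.mem_filter, Finset.mem_range]
        have h3 : l[i.1] ∈ l := List.getElem_mem _
        refine ⟨?_, hs2 _ (Multiset.mem_coe.2 h3)⟩
        have h4 := List.le_sum_of_mem h3
        omega
      · rw [← hs3]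
        exact Fin.sum_univ_getElem l
  have h2 := (Finset.card_le_card h1).trans Finset.card_image_le
  rw [Nat.card_Icc, Fintype.card_piFinset, Finset.prod_const, Finset.card_univ,
    Fintype.card_fin] at h2
  exact h2.trans (Nat.pow_le_pow_left hDc h)

lemma basis_freq {A : Set ℕ} {h : ℕ} (hh : 1 ≤ h) (hA : IsBasis A h) :
    ∃ᶠ x : ℕ in atTop, (x : ℝ) ^ (1 / (2 * h : ℝ)) ≤ ((A ∩ Set.Icc 1 x).ncard : ℝ) := by
  obtain ⟨N, hN⟩ := hA
  apply Filter.Eventually.frequently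
  filter_upwards [eventually_ge_atTop ((2 ^ h + N + 1) ^ 2)] with x hx
  by_contra hcon
  push Not at hcon
  have hh0 : (0 : ℝ) < h := by exact_mod_cast hh
  set y : ℝ := (x : ℝ) ^ (1 / (2 * h : ℝ)) with hy
  have hx1 : (1 : ℝ) ≤ x := by
    have : 1 ≤ (2 ^ h + N + 1) ^ 2 := Nat.one_le_pow _ _ (Nat.succ_pos _)
    exact_mod_cast this.trans hx
  have hy1 : 1 ≤ y := Real.one_le_rpow hx1 (by positivity)
  have hyh : y ^ h = √x := by
    rw [hy, ← Real.rpow_natCast, ← Real.rpow_mul (by positivity), Real.sqrt_eq_rpow]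
    congr 1
    field_simp
  have h1 := basis_count hN x
  have h2 : ((x + 1 - N : ℕ) : ℝ) ≤ (((A ∩ Set.Icc 1 x).ncard : ℝ) + 1) ^ h := by
    exact_mod_cast h1
  have h3 : (((A ∩ Set.Icc 1 x).ncard : ℝ) + 1) ^ h ≤ (2 * y) ^ h := by
    apply pow_le_pow_left₀ (by positivity)
    linarith
  rw [mul_pow, hyh] at h3
  have h4 : (2 ^ h + N + 1 : ℝ) ≤ √x := by
    apply Real.le_sqrt_of_sq_le
    exact_mod_cast hx
  have h5 : (x : ℝ) = √x * √x := (Real.mul_self_sqrt (by positivity)).symm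
  have h6 : N ≤ x + 1 := by
    have : N ≤ (2 ^ h + N + 1) ^ 2 := by nlinarith [Nat.zero_le (2 ^ h)]
    omega
  rw [Nat.cast_sub h6] at h2
  push_cast at h2
  have h7 : (1 : ℝ) ≤ √x := by
    have : (0 : ℝ) ≤ 2 ^ h + N := by positivity
    linarith
  nlinarith [(Nat.cast_nonneg N : (0 : ℝ) ≤ N)]

/-- Coprime multipliers. -/
theorem coprime_mult {A M : Set ℕ} {h : ℕ} (hh : 2 ≤ h) (hA0 : 0 ∉ A) (hA : IsBasis A h)
    (hact : Acts M A) (hM : M.Pairwise Nat.Coprime) :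
    ∃ N : ℕ, ∀ T : Finset ℕ, (∀ m ∈ T, m ∈ M ∧ N ≤ m) → T.card ≤ rep A h (∏ m ∈ T, m) := by
  classical
  obtain ⟨N, hN⟩ := hA
  choose! s hs1 hs2 hs3 using hN
  refine ⟨N + 1, fun T hT => ?_⟩
  have hpos : ∀ m ∈ T, 0 < m := fun m hm => by have := (hT m hm).2; omega
  have hge : ∀ m ∈ T, N ≤ m := fun m hm => by have := (hT m hm).2; omega
  apply card_le_rep_of_shapes T (fun m => m) s (fun m => ∏ m' ∈ T.erase m, m')
  · intro m hm
    exact Finset.prod_pos fun m' hm' => hpos m' (Finset.mem_of_mem_erase hm')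
  · intro m hm
    rw [mul_comm]
    exact Finset.mul_prod_erase T (fun m => m) hm
  · intro m hm
    exact hs1 m (hge m hm)
  · intro m hm x hx
    apply hact.prod
    · intro m' hm'
      exact (hT m' (Finset.mem_of_mem_erase hm')).1
    · exact hs2 m (hge m hm) x hx
  · intro m hm
    exact hs3 m (hge m hm)
  · intro m hm m' hm' heq
    by_contra hne
    have hc : Nat.Coprime m m' := hM (hT m hm).1 (hT m' hm').1 hne
    simp only at heq
    -- a part of the representation of `m`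
    have hcard := hs1 m (hge m hm)
    obtain ⟨x, hx⟩ : ∃ x, x ∈ s m := Multiset.exists_mem_of_ne_zero (by
      intro h0
      rw [h0] at hcard
      simp at hcard
      omega)
    obtain ⟨t, ht⟩ := Multiset.exists_cons_of_mem hx
    have hsum := hs3 m (hge m hm)
    have htc : Multiset.card t = h - 1 := by
      rw [ht, Multiset.card_cons] at hcard
      omega
    obtain ⟨y, hy⟩ : ∃ y, y ∈ t := Multiset.exists_mem_of_ne_zero (by
      intro h0
      rw [h0] at htc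
      simp at htc
      omega)
    have hyA : y ∈ A := hs2 m (hge m hm) y (by rw [ht]; exact Multiset.mem_cons_of_mem hy)
    have hxA : x ∈ A := hs2 m (hge m hm) x hx
    have hy0 : 0 < y := Nat.pos_of_ne_zero (by rintro rfl; exact hA0 hyA)
    have hx0 : 0 < x := Nat.pos_of_ne_zero (by rintro rfl; exact hA0 hxA)
    have hxm : x < m := by
      rw [ht, Multiset.sum_cons] at hsum
      have := Multiset.le_sum_of_mem hy
      omega
    have h1 : (x : ℚ) / m ∈ shape m (s m) := by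
      unfold shape
      exact Multiset.mem_map_of_mem (fun x : ℕ => (x : ℚ) / m) hx
    rw [heq] at h1
    unfold shape at h1
    rw [Multiset.mem_map] at h1
    obtain ⟨z, _, hz⟩ := h1
    have hmq : (m : ℚ) ≠ 0 := by exact_mod_cast (hpos m hm).ne'
    have hmq' : (m' : ℚ) ≠ 0 := by exact_mod_cast (hpos m' hm').ne'
    rw [div_eq_div_iff hmq' hmq] at hz
    have h2 : z * m = x * m' := by exact_mod_cast hz
    have h3 : m ∣ x * m' := ⟨z, by rw [← h2]; ring⟩
    have h4 : m ∣ x := hc.dvd_of_dvd_mul_right h3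
    have := Nat.le_of_dvd hx0 h4
    omega

/-- Qualitative general theorem. -/
theorem general {A S : Set ℕ} {F : Finset ℕ} {h : ℕ} (hact : Acts S A) (hS0 : 0 ∉ S)
    (hcl : ∀ a ∈ A, a ≠ 0 → ∃ f ∈ F, ∃ s ∈ S, ∃ s' ∈ S, s * a = s' * f)
    (hsum : ∃ N : ℕ, ∀ a ∈ A, N ≤ a → ∃ s : Multiset ℕ, Multiset.card s = h ∧
      (∀ b ∈ s, b ∈ A) ∧ s.sum = a ∧ a ∉ s)
    (hprimes : {p : ℕ | p.Prime ∧ ∃ a ∈ A, a ≠ 0 ∧ p ∣ a}.Infinite) :
    ∀ K : ℕ, ∃ n, K < rep A h n := by
  classical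
  intro K
  by_contra hcon
  push Not at hcon
  obtain ⟨N, hN⟩ := hsum
  choose! s hs1 hs2 hs3 hs4 using hN
  -- finitely many shapes
  have hfin : {τ : Multiset ℚ | ∃ a ∈ A, N ≤ a ∧ 0 < a ∧ shape a (s a) = τ}.Finite := by
    have hsub : {τ : Multiset ℚ | ∃ a ∈ A, N ≤ a ∧ 0 < a ∧ shape a (s a) = τ} ⊆
        ⋃ f ∈ F, {τ : Multiset ℚ | ∃ a ∈ A, N ≤ a ∧ 0 < a ∧
          (∃ u ∈ S, ∃ u' ∈ S, u * a = u' * f) ∧ shape a (s a) = τ} := by
      rintro τ ⟨a, ha, haN, ha0, hτ⟩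
      obtain ⟨f, hf, u, hu, u', hu', he⟩ := hcl a ha ha0.ne'
      simp only [Set.mem_iUnion]
      exact ⟨f, hf, a, ha, haN, ha0, ⟨u, hu, u', hu', he⟩, hτ⟩
    refine Set.Finite.subset (Set.Finite.biUnion F.finite_toSet ?_) hsub
    intro f hf
    by_contra hinf
    obtain ⟨T, hTsub, hTc⟩ := Set.Infinite.exists_subset_card_eq hinf (K + 1)
    have hch : ∀ τ ∈ T, ∃ a, a ∈ A ∧ N ≤ a ∧ 0 < a ∧
        (∃ u, u ∈ S ∧ ∃ u', u' ∈ S ∧ u * a = u' * f) ∧ shape a (s a) = τ := by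
      intro τ hτ
      obtain ⟨a, ha, haN, ha0, ⟨u, hu, u', hu', he⟩, hτ'⟩ := hTsub hτ
      exact ⟨a, ha, haN, ha0, ⟨u, hu, u', hu', he⟩, hτ'⟩
    choose! al hal1 hal2 hal3 hal4 hal5 using hch
    choose! uu huu vv hvv huv using hal4
    have hpos : ∀ {u}, u ∈ S → 0 < u := by
      intro u hu
      exact Nat.pos_of_ne_zero (by rintro rfl; exact hS0 hu)
    have h1 : T.card ≤ rep A h (f * ∏ τ ∈ T, vv τ) := by
      apply card_le_rep_of_shapes T al (fun τ => s (al τ))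
        (fun τ => uu τ * ∏ τ' ∈ T.erase τ, vv τ')
      · intro τ hτ
        exact Nat.mul_pos (hpos (huu τ hτ))
          (Finset.prod_pos fun τ' hτ' => hpos (hvv τ' (Finset.mem_of_mem_erase hτ')))
      · intro τ hτ
        rw [← Finset.mul_prod_erase T vv hτ]
        calc uu τ * (∏ τ' ∈ T.erase τ, vv τ') * al τ
            = (uu τ * al τ) * ∏ τ' ∈ T.erase τ, vv τ' := by ring
          _ = (vv τ * f) * ∏ τ' ∈ T.erase τ, vv τ' := by rw [huv τ hτ]
          _ = _ := by ring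
      · intro τ hτ
        exact hs1 _ (hal1 τ hτ) (hal2 τ hτ)
      · intro τ hτ b hb
        rw [mul_assoc]
        apply hact _ (huu τ hτ)
        apply hact.prod
        · intro τ' hτ'
          exact hvv τ' (Finset.mem_of_mem_erase hτ')
        · exact hs2 _ (hal1 τ hτ) (hal2 τ hτ) b hb
      · intro τ hτ
        exact hs3 _ (hal1 τ hτ) (hal2 τ hτ)
      · intro τ hτ τ' hτ' hh
        simp only at hh
        rw [hal5 τ hτ, hal5 τ' hτ'] at hh
        exact hh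
    have h2 := hcon (f * ∏ τ ∈ T, vv τ)
    omega
  -- representatives of the shapes
  set G := hfin.toFinset with hG
  have hrep : ∀ τ ∈ G, ∃ a, a ∈ A ∧ N ≤ a ∧ 0 < a ∧ shape a (s a) = τ := by
    intro τ hτ
    rw [hG, Set.Finite.mem_toFinset] at hτ
    exact hτ
  choose! al hal1 hal2 hal3 hal4 using hrep
  -- a large prime
  obtain ⟨p, ⟨hp, hpa⟩, hpbig⟩ := hprimes.exists_gt (N + ∑ τ ∈ G, al τ)
  -- the least multiple
  have hex : ∃ a, a ∈ A ∧ a ≠ 0 ∧ p ∣ a := hpa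
  obtain ⟨ha, ha0, hpa'⟩ := Nat.find_spec hex
  set a := Nat.find hex with hadef
  have hmin : ∀ b < a, ¬ (b ∈ A ∧ b ≠ 0 ∧ p ∣ b) := fun b hb => Nat.find_min hex hb
  have hap : p ≤ a := Nat.le_of_dvd (Nat.pos_of_ne_zero ha0) hpa'
  have haN : N ≤ a := by omega
  have hapos : 0 < a := Nat.pos_of_ne_zero ha0
  obtain ⟨x, hx, hx0, hx2, hxe⟩ := beta_spec hapos (hs3 a ha haN) (hs4 a ha haN)
  have hτG : shape a (s a) ∈ G := by
    rw [hG, Set.Finite.mem_toFinset]
    exact ⟨a, ha, haN, hapos, rfl⟩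
  set τ := shape a (s a) with hτ
  obtain ⟨y, hy, hy0, hy2, hye⟩ := beta_spec (hal3 τ hτG) (hs3 _ (hal1 τ hτG) (hal2 τ hτG))
    (hs4 _ (hal1 τ hτG) (hal2 τ hτG))
  rw [hal4 τ hτG] at hye
  have h1 : x * al τ = y * a := by
    have : (x : ℚ) * al τ = y * a := by
      rw [← hxe, ← hye]
      ring
    exact_mod_cast this
  have h2 : p ∣ x * al τ := by
    rw [h1]
    exact Dvd.dvd.mul_left hpa' y
  have h3 : al τ ≤ ∑ τ ∈ G, al τ :=
    Finset.single_le_sum (f := al) (fun _ _ => Nat.zero_le _) hτG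
  have h4 : ¬ p ∣ al τ := by
    intro h5
    have := Nat.le_of_dvd (hal3 τ hτG) h5
    omega
  have h5 : p ∣ x := (hp.dvd_mul.1 h2).resolve_right h4
  exact hmin x (by omega) ⟨hs2 a ha haN x hx, hx0.ne', h5⟩

end Pool.Agent.TH503.MB
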